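import Pool.Agent.Helper84.SPL.A
import Pool.Agent.Helper84.XL.NX
import Pool.Agent.Helper39.XP.A
import Pool.Agent.Helper57.KNK.PK4

/-!
MP_c75db0: the tests of a near cell in separate declarations: the parts of the program, the
identities, every wall, the choice of the root, every orientation of the tests of type B.
-/

set_option autoImplicit false
noncomputable section
namespace Pool.Agent.Helper84.SPL

open Pool.Agent.Helper86.CX (andB)
open Pool.Agent.Helper86.CT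
open Pool.Agent.Helper86.CK (PA)
open Pool.Agent.Helper48.NCT (IT FTT NDT chkNT chkNET chkIT famCT pcNT chkPNT)
open Pool.Agent.Helper57.KNB (BXT NBT chkNB pcNB chkPNB bCT chBNo bCT_of famCT_of)
open Pool.Agent.Helper57.KNK (chB1k chB2k chB3k chB4k chB1s chB2s chB3s chB4s)
open Pool.Agent.Helper84.XL (nbX)
open Pool.Agent.Helper21.KRN (TProg XM expand PI)
open Pool.Agent.Helper39.XP (expandX xPX)

theorem xPX_app {α v : Type} (X : XM α v) (l l' : List PI) :
    xPX X (l ++ l') = xPX X l ++ xPX X l' := by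
  induction l with
  | nil => rfl
  | cons x l ih =>
    show _ :: xPX X (l ++ l') = _ :: (xPX X l ++ xPX X l')
    rw [ih]

theorem expandX_app {α v : Type} (X : XM α v) (G H : TProg) :
    expandX X (app G H) = apP (expandX X G) (expandX X H) := by
  unfold expandX app apP
  simp only [xPX_app]

section

variable {α β δ p v γ : Type} {M : Mc α β p v γ} {S : Sv p} {W : Vx β} {y : Nat → Nat → α}
  {C : Cls α} {X : XM α v} {G H : TProg} {x0 : Mo α} {sl sl' : List Nat} {le le' : List LT2}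

/-- one cell, two parts of the program, thin runs as one block -/
theorem chkDTX_app {c : CellT α β} (h : chkDT M S W y C (expandX X G) x0 sl' le' c = true)
    (h' : chkDT M S W y C (expandX X H) x0 sl le c = true) :
    chkDT M S W y C (expandX X (app G H)) x0 sl le c = true := by
  rw [expandX_app]
  refine an h h' fun h h' => ?_
  exact an2 h h' chCell_app fun _ h => h

/-! ### the tests besides the program -/

/-- the identities -/
def tI (M : Mc α β p v γ) (ONE : β) (il : List IT) (d : NDT α β δ) : Bool :=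
  chkIT M d.c.K d.c.L ONE il
/-- some walls -/
def tW (M : Mc α β p v γ) (y : Nat → Nat → α) (F : FTT α β δ) (f0 f1 f2 : Bool) (k0 k1 k2 : Mo α)
    (C : Cls α) (x0 : Mo α) (d : NDT α β δ) : Bool :=
  famCT M.A F f0 f1 f2 k0 k1 k2 C d.D0 d.D1 d.D2
    (addM M.A x0 (mk M.A (y d.c.ya d.c.yb) (nat_lit 0))) d.c.m d.c.u d.c.K
/-- the tests of type B -/
def tB (M : Mc α β p v γ) (y : Nat → Nat → α) (FB : BXT α β) (k0 k1 k2 : Mo α)
    (C : Cls α) (x0 : Mo α) (d : NBT α β δ) : Bool :=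
  bCT M.A FB k0 k1 k2 C x0 d.n.c.yb d.B d.n.c.K
    (addM M.A x0 (mk M.A (y d.n.c.ya d.n.c.yb) (nat_lit 0))) d.n.c.m d.n.c.u

variable {F : FTT α β δ} {f0 f1 f2 : Bool} {k0 k1 k2 : Mo α} {ONE : β} {il : List IT}
  {Gx : Prog v} {a e : Nat}

theorem chkNT_of {d : NDT α β δ} (h1 : chkDT M S W y C Gx x0 sl le d.c = true)
    (h2 : tI M ONE il d = true) (w0 : tW M y F f0 false false k0 k1 k2 C x0 d = true)
    (w1 : tW M y F false f1 false k0 k1 k2 C x0 d = true)
    (w2 : tW M y F false false f2 k0 k1 k2 C x0 d = true) :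
    chkNT M S W y F f0 f1 f2 k0 k1 k2 C Gx x0 sl le ONE il d = true :=
  mk2 h1 (mk2 h2 (famCT_of w0 w1 w2))

/-- A NEAR CELL FROM ITS PARTS -/
theorem chkPNT_of {d : NDT α β δ} (h0 : pcNT (fun _ => true) e [d] a = true)
    (h1 : chkDT M S W y C Gx x0 sl le d.c = true)
    (h2 : tI M ONE il d = true) (w0 : tW M y F f0 false false k0 k1 k2 C x0 d = true)
    (w1 : tW M y F false f1 false k0 k1 k2 C x0 d = true)
    (w2 : tW M y F false false f2 k0 k1 k2 C x0 d = true) :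
    chkPNT M S W y F f0 f1 f2 k0 k1 k2 C Gx x0 sl le ONE il e [d] a = true :=
  mk2 (tt h0).1 (mk2 (tt (tt h0).2).1 (mk2 (chkNT_of h1 h2 w0 w1 w2) (tt (tt (tt h0).2).2).2))

/-- A NEAR CELL WITH TESTS OF TYPE B FROM ITS PARTS -/
theorem chkPNB_of {FB : BXT α β} {d : NBT α β δ} (h0 : pcNB (fun _ => true) e [d] a = true)
    (h1 : chkDT M S W y C Gx x0 sl le d.n.c = true)
    (h2 : tI M ONE il d.n = true) (w0 : tW M y F f0 false false k0 k1 k2 C x0 d.n = true)
    (w1 : tW M y F false f1 false k0 k1 k2 C x0 d.n = true)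
    (w2 : tW M y F false false f2 k0 k1 k2 C x0 d.n = true)
    (b : tB M y FB k0 k1 k2 C x0 d = true) :
    chkPNB M S W y F FB f0 f1 f2 k0 k1 k2 C Gx x0 sl le ONE il e [d] a = true :=
  mk2 (tt h0).1 (mk2 (tt (tt h0).2).1 (mk2 (mk2 (chkNT_of h1 h2 w0 w1 w2) b)
    (tt (tt (tt h0).2).2).2))

/-- no border cell -/
theorem tB_nb {FB : BXT α β} {d : NBT α β δ} (hb : d.B.b = false)
    (b : tB M y FB k0 k1 k2 C x0 d = true) : tB M y (nbX FB) k0 k1 k2 C x0 d = true := by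
  have e : tB M y (nbX FB) k0 k1 k2 C x0 d =
      Bool.rec (motive := fun _ => Bool) (tB M y FB k0 k1 k2 C x0 d) false d.B.b := rfl
  rw [e, hb]
  exact b

end

section

variable {β δ p v γ : Type}

theorem tB1_of {M : Mc (PA 1) (Pr Nat) p v γ} {y : Nat → Nat → PA 1} {k0 k1 k2 : Mo (PA 1)}
    {C : Cls (PA 1)} {x0 : Mo (PA 1)} {d : NBT (PA 1) (Pr Nat) δ}
    (h0 : tB M y (chBNo Pool.Agent.Helper86.CK.K1) k0 k1 k2 C x0 d = true)
    (h : tB M y (chB1s false) k0 k1 k2 C x0 d = true)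
    (h' : tB M y (chB1s true) k0 k1 k2 C x0 d = true) :
    tB M y chB1k k0 k1 k2 C x0 d = true := bCT_of h0 h h'

theorem tB2_of {M : Mc (PA 2) (Pr (Pr Nat)) p v γ} {y : Nat → Nat → PA 2} {k0 k1 k2 : Mo (PA 2)}
    {C : Cls (PA 2)} {x0 : Mo (PA 2)} {d : NBT (PA 2) (Pr (Pr Nat)) δ}
    (h0 : tB M y (chBNo Pool.Agent.Helper86.CK.K2) k0 k1 k2 C x0 d = true)
    (h : tB M y (chB2s false) k0 k1 k2 C x0 d = true)
    (h' : tB M y (chB2s true) k0 k1 k2 C x0 d = true) :
    tB M y chB2k k0 k1 k2 C x0 d = true := bCT_of h0 h h'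

theorem tB3_of {M : Mc (PA 3) (Pr (Pr (Pr Nat))) p v γ} {y : Nat → Nat → PA 3}
    {k0 k1 k2 : Mo (PA 3)} {C : Cls (PA 3)} {x0 : Mo (PA 3)}
    {d : NBT (PA 3) (Pr (Pr (Pr Nat))) δ}
    (h0 : tB M y (chBNo Pool.Agent.Helper86.CK.K3) k0 k1 k2 C x0 d = true)
    (h : tB M y (chB3s false) k0 k1 k2 C x0 d = true)
    (h' : tB M y (chB3s true) k0 k1 k2 C x0 d = true) :
    tB M y chB3k k0 k1 k2 C x0 d = true := bCT_of h0 h h'

theorem tB4_of {M : Mc (PA 4) (Pr (Pr (Pr (Pr Nat)))) p v γ} {y : Nat → Nat → PA 4}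
    {k0 k1 k2 : Mo (PA 4)} {C : Cls (PA 4)} {x0 : Mo (PA 4)}
    {d : NBT (PA 4) (Pr (Pr (Pr (Pr Nat)))) δ}
    (h0 : tB M y (chBNo Pool.Agent.Helper86.CK.K4) k0 k1 k2 C x0 d = true)
    (h : tB M y (chB4s false) k0 k1 k2 C x0 d = true)
    (h' : tB M y (chB4s true) k0 k1 k2 C x0 d = true) :
    tB M y chB4k k0 k1 k2 C x0 d = true := bCT_of h0 h h'

end

end Pool.Agent.Helper84.SPL
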