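import Pool.Agent.Helper21.CT.KRN
import Pool.Agent.Helper48.CT.NKT
import Pool.Agent.Helper57.KNB.KC2

/-!
MP_c75db0: the test of a cell can be done in several declarations: the program is cut into parts,
every part is tested alone; the static tests, the slit tests, the identity blocks and the families
belong to the last part.
-/

set_option autoImplicit false
noncomputable section
namespace Pool.Agent.Helper84.SPL

open Pool.Agent.Helper86.CX (andB P9)
open Pool.Agent.Helper86.CT
open Pool.Agent.Helper48.NCT (IT FTT NDT chkNT pcNT chkPNT)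
open Pool.Agent.Helper57.KNB (BXT NBT chkNB pcNB chkPNB)
open Pool.Agent.Helper21.KRN (TProg XM expand xP PI)

theorem tt {x y : Bool} (h : andB x y = true) : x = true ∧ y = true := by
  cases x
  · cases h
  · exact ⟨rfl, h⟩

theorem mk2 {x y : Bool} (h : x = true) (h' : y = true) : andB x y = true := by
  subst h
  exact h'

/-- if `x` holds already -/
theorem an {x y y' y'' : Bool} (h : andB x y = true) (h' : andB x y' = true)
    (f : y = true → y' = true → y'' = true) : andB x y'' = true :=
  mk2 (tt h).1 (f (tt h).2 (tt h').2)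

/-- both members -/
theorem an2 {x y x' y' x'' y'' : Bool} (h : andB x y = true) (h' : andB x' y' = true)
    (g : x = true → x' = true → x'' = true)
    (f : y = true → y' = true → y'' = true) : andB x'' y'' = true :=
  mk2 (g (tt h).1 (tt h').1) (f (tt h).2 (tt h').2)

/-! ### programs -/

/-- two programs of the kernel checker -/
def apP {v : Type} (G H : Prog v) : Prog v :=
  ⟨G.e0 ++ H.e0, G.e1 ++ H.e1, G.e2 ++ H.e2, G.e3 ++ H.e3, G.e4 ++ H.e4, G.e5 ++ H.e5,
    G.o0 ++ H.o0, G.o1 ++ H.o1, G.o2 ++ H.o2, G.o3 ++ H.o3, G.o4 ++ H.o4, G.o5 ++ H.o5,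
    G.r0 ++ H.r0, G.r1 ++ H.r1, G.r2 ++ H.r2, G.r3 ++ H.r3, G.r4 ++ H.r4, G.r5 ++ H.r5,
    G.l0 ++ H.l0, G.l1 ++ H.l1, G.l2 ++ H.l2, G.l3 ++ H.l3, G.l4 ++ H.l4, G.l5 ++ H.l5⟩

/-- two programs -/
def app (G H : TProg) : TProg :=
  ⟨G.e0 ++ H.e0, G.e1 ++ H.e1, G.e2 ++ H.e2, G.e3 ++ H.e3, G.e4 ++ H.e4, G.e5 ++ H.e5,
    G.o0 ++ H.o0, G.o1 ++ H.o1, G.o2 ++ H.o2, G.o3 ++ H.o3, G.o4 ++ H.o4, G.o5 ++ H.o5,
    G.r0 ++ H.r0, G.r1 ++ H.r1, G.r2 ++ H.r2, G.r3 ++ H.r3, G.r4 ++ H.r4, G.r5 ++ H.r5,
    G.l0 ++ H.l0, G.l1 ++ H.l1, G.l2 ++ H.l2, G.l3 ++ H.l3, G.l4 ++ H.l4, G.l5 ++ H.l5⟩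

theorem xP_app {α v : Type} (X : XM α v) (l l' : List PI) : xP X (l ++ l') = xP X l ++ xP X l' := by
  induction l with
  | nil => rfl
  | cons x l ih =>
    show _ :: xP X (l ++ l') = _ :: (xP X l ++ xP X l')
    rw [ih]

theorem expand_app {α v : Type} (X : XM α v) (G H : TProg) :
    expand X (app G H) = apP (expand X G) (expand X H) := by
  unfold expand app apP
  simp only [xP_app]

section

variable {α β p v γ : Type} {M : Mc α β p v γ} {S : Sv p} {C : Cls α} {KT LT : β}

theorem chE_app {c : CE α} {l l' : List (PT v)} (h : chE M KT LT c l = true)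
    (h' : chE M KT LT c l' = true) : chE M KT LT c (l ++ l') = true := by
  induction l with
  | nil => exact h'
  | cons x l ih => exact mk2 (tt h).1 (ih (tt h).2)

theorem chO_app {c : CO α} {l l' : List (PT v)} (h : chO M KT LT c l = true)
    (h' : chO M KT LT c l' = true) : chO M KT LT c (l ++ l') = true := by
  induction l with
  | nil => exact h'
  | cons x l ih => exact mk2 (tt h).1 (ih (tt h).2)

theorem chR_app {f : P9 → Bool} {c : CE α} {l l' : List Nat} (h : chR M S f KT c l = true)
    (h' : chR M S f KT c l' = true) : chR M S f KT c (l ++ l') = true := by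
  induction l with
  | nil => exact h'
  | cons x l ih => exact mk2 (tt h).1 (ih (tt h).2)

variable {G H : Prog v}

theorem chOm_app {m0 m1 m2 m3 m4 m5 : Mo α} (h : chOm M S C KT LT G m0 m1 m2 m3 m4 m5 = true)
    (h' : chOm M S C KT LT H m0 m1 m2 m3 m4 m5 = true) :
    chOm M S C KT LT (apP G H) m0 m1 m2 m3 m4 m5 = true := by
  refine an2 h h' chE_app fun h h' => ?_
  refine an2 h h' chE_app fun h h' => ?_
  refine an2 h h' chE_app fun h h' => ?_
  refine an2 h h' chE_app fun h h' => ?_
  refine an2 h h' chE_app fun h h' => ?_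
  refine an2 h h' chE_app fun h h' => ?_
  refine an2 h h' chO_app fun h h' => ?_
  refine an2 h h' chO_app fun h h' => ?_
  refine an2 h h' chO_app fun h h' => ?_
  refine an2 h h' chO_app fun h h' => ?_
  refine an2 h h' chO_app fun h h' => ?_
  refine an2 h h' chO_app fun h h' => ?_
  refine an2 h h' chR_app fun h h' => ?_
  refine an2 h h' chR_app fun h h' => ?_
  refine an2 h h' chR_app fun h h' => ?_
  refine an2 h h' chR_app fun h h' => ?_
  refine an2 h h' chR_app fun h h' => ?_
  refine an2 h h' chR_app fun h h' => ?_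
  refine an2 h h' chR_app fun h h' => ?_
  refine an2 h h' chR_app fun h h' => ?_
  refine an2 h h' chR_app fun h h' => ?_
  refine an2 h h' chR_app fun h h' => ?_
  refine an2 h h' chR_app fun h h' => ?_
  exact chR_app h h'

theorem chG_app {g0 g1 g2 g3 g4 g5 : Mo α} (h : chG M S C KT LT G g0 g1 g2 g3 g4 g5 = true)
    (h' : chG M S C KT LT H g0 g1 g2 g3 g4 g5 = true) :
    chG M S C KT LT (apP G H) g0 g1 g2 g3 g4 g5 = true := by
  refine an h h' fun h h' => ?_
  refine an h h' fun h h' => ?_
  refine an h h' fun h h' => ?_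
  refine an h h' fun h h' => ?_
  refine an h h' fun h h' => ?_
  refine an h h' fun h h' => ?_
  exact chOm_app h h'

theorem chCell_app {x : Mo α} {m : Nat} {u : α} (h : chCell M S C G x m u KT LT = true)
    (h' : chCell M S C H x m u KT LT = true) : chCell M S C (apP G H) x m u KT LT = true :=
  an h h' fun h h' => chG_app h h'

end

section

variable {α β p v γ : Type} {M : Mc α β p v γ} {S : Sv p} {W : Vx β} {y : Nat → Nat → α}
  {C : Cls α} {X : XM α v} {G H : TProg} {x0 : Mo α} {sl sl' : List Nat} {le le' : List LT2}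

/-- one cell, two parts of the program; static and slit tests in the second part -/
theorem chkDT_app {c : CellT α β} (h : chkDT M S W y C (expand X G) x0 sl' le' c = true)
    (h' : chkDT M S W y C (expand X H) x0 sl le c = true) :
    chkDT M S W y C (expand X (app G H)) x0 sl le c = true := by
  rw [expand_app]
  refine an h h' fun h h' => ?_
  exact an2 h h' chCell_app fun _ h => h

/-- MIDDLE CELLS -/
theorem chkPcT_app {l : List (CellT α β)} {e : Nat} : ∀ {a : Nat},
    chkPcT M S W y C (expand X G) x0 sl' le' e l a = true →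
    chkPcT M S W y C (expand X H) x0 sl le e l a = true →
    chkPcT M S W y C (expand X (app G H)) x0 sl le e l a = true := by
  induction l with
  | nil => exact fun h _ => h
  | cons c l ih =>
    intro a h h'
    refine an h h' fun h h' => ?_
    refine an h h' fun h h' => ?_
    exact an2 h h' chkDT_app fun h h' => ih h h'

variable {δ : Type} {F F' : FTT α β δ} {f0 f1 f2 f0' f1' f2' : Bool} {k0 k1 k2 : Mo α} {ONE : β}
  {il il' : List IT}

/-- one near cell; static and slit tests, identity blocks and families in the second part -/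
theorem chkNT_app {d : NDT α β δ}
    (h : chkNT M S W y F' f0' f1' f2' k0 k1 k2 C (expand X G) x0 sl' le' ONE il' d = true)
    (h' : chkNT M S W y F f0 f1 f2 k0 k1 k2 C (expand X H) x0 sl le ONE il d = true) :
    chkNT M S W y F f0 f1 f2 k0 k1 k2 C (expand X (app G H)) x0 sl le ONE il d = true :=
  an2 h h' chkDT_app fun _ h => h

/-- NEAR CELLS -/
theorem chkPNT_app {l : List (NDT α β δ)} {e : Nat} : ∀ {a : Nat},
    chkPNT M S W y F' f0' f1' f2' k0 k1 k2 C (expand X G) x0 sl' le' ONE il' e l a = true →
    chkPNT M S W y F f0 f1 f2 k0 k1 k2 C (expand X H) x0 sl le ONE il e l a = true →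
    chkPNT M S W y F f0 f1 f2 k0 k1 k2 C (expand X (app G H)) x0 sl le ONE il e l a = true := by
  induction l with
  | nil => exact fun h _ => h
  | cons c l ih =>
    intro a h h'
    refine an h h' fun h h' => ?_
    refine an h h' fun h h' => ?_
    exact an2 h h' chkNT_app fun h h' => ih h h'

variable {FB : BXT α β}

/-- NEAR CELLS WITH TESTS OF TYPE B: the first part without them -/
theorem chkPNB_app {l : List (NBT α β δ)} {e : Nat} : ∀ {a : Nat},
    chkPNT M S W y F' f0' f1' f2' k0 k1 k2 C (expand X G) x0 sl' le' ONE il' e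
      (l.map fun d => d.n) a = true →
    chkPNB M S W y F FB f0 f1 f2 k0 k1 k2 C (expand X H) x0 sl le ONE il e l a = true →
    chkPNB M S W y F FB f0 f1 f2 k0 k1 k2 C (expand X (app G H)) x0 sl le ONE il e l a = true := by
  induction l with
  | nil => exact fun h _ => h
  | cons c l ih =>
    intro a h h'
    refine an h h' fun h h' => ?_
    refine an h h' fun h h' => ?_
    refine an2 h h' (fun h h' => ?_) fun h h' => ih h h'
    exact mk2 (chkNT_app h (tt h').1) (tt h').2

end

end Pool.Agent.Helper84.SPL
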