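import Pool.Agent.Helper84.SPL.P
import Pool.Agent.Helper57.KNC.PK5
import Pool.Agent.Helper57.KNC.PK6

/-!
MP_c75db0: the tests of type B with the sharp bound of the modulus, from their parts.
-/

set_option autoImplicit false
noncomputable section
namespace Pool.Agent.Helper84.SPL

open Pool.Agent.Helper86.CT
open Pool.Agent.Helper86.CK (PA)
open Pool.Agent.Helper57.KNB (NBT chBNo bCT_of)
open Pool.Agent.Helper57.KNC (chB1q chB2q chB3q chB4q chB1qs chB2qs chB3qs chB4qs)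

section

variable {δ p v γ : Type}

theorem tB1q_of {M : Mc (PA 1) (Pr Nat) p v γ} {y : Nat → Nat → PA 1} {k0 k1 k2 : Mo (PA 1)}
    {C : Cls (PA 1)} {x0 : Mo (PA 1)} {d : NBT (PA 1) (Pr Nat) δ}
    (h0 : tB M y (chBNo Pool.Agent.Helper86.CK.K1) k0 k1 k2 C x0 d = true)
    (h : tB M y (chB1qs false) k0 k1 k2 C x0 d = true)
    (h' : tB M y (chB1qs true) k0 k1 k2 C x0 d = true) :
    tB M y chB1q k0 k1 k2 C x0 d = true := bCT_of h0 h h'

theorem tB2q_of {M : Mc (PA 2) (Pr (Pr Nat)) p v γ} {y : Nat → Nat → PA 2} {k0 k1 k2 : Mo (PA 2)}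
    {C : Cls (PA 2)} {x0 : Mo (PA 2)} {d : NBT (PA 2) (Pr (Pr Nat)) δ}
    (h0 : tB M y (chBNo Pool.Agent.Helper86.CK.K2) k0 k1 k2 C x0 d = true)
    (h : tB M y (chB2qs false) k0 k1 k2 C x0 d = true)
    (h' : tB M y (chB2qs true) k0 k1 k2 C x0 d = true) :
    tB M y chB2q k0 k1 k2 C x0 d = true := bCT_of h0 h h'

theorem tB3q_of {M : Mc (PA 3) (Pr (Pr (Pr Nat))) p v γ} {y : Nat → Nat → PA 3}
    {k0 k1 k2 : Mo (PA 3)} {C : Cls (PA 3)} {x0 : Mo (PA 3)}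
    {d : NBT (PA 3) (Pr (Pr (Pr Nat))) δ}
    (h0 : tB M y (chBNo Pool.Agent.Helper86.CK.K3) k0 k1 k2 C x0 d = true)
    (h : tB M y (chB3qs false) k0 k1 k2 C x0 d = true)
    (h' : tB M y (chB3qs true) k0 k1 k2 C x0 d = true) :
    tB M y chB3q k0 k1 k2 C x0 d = true := bCT_of h0 h h'

theorem tB4q_of {M : Mc (PA 4) (Pr (Pr (Pr (Pr Nat)))) p v γ} {y : Nat → Nat → PA 4}
    {k0 k1 k2 : Mo (PA 4)} {C : Cls (PA 4)} {x0 : Mo (PA 4)}
    {d : NBT (PA 4) (Pr (Pr (Pr (Pr Nat)))) δ}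
    (h0 : tB M y (chBNo Pool.Agent.Helper86.CK.K4) k0 k1 k2 C x0 d = true)
    (h : tB M y (chB4qs false) k0 k1 k2 C x0 d = true)
    (h' : tB M y (chB4qs true) k0 k1 k2 C x0 d = true) :
    tB M y chB4q k0 k1 k2 C x0 d = true := bCT_of h0 h h'

end

end Pool.Agent.Helper84.SPL
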